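import Pool.Agent.Work.MP_4dcfa0_45.Conic

/-!
Infinitude of the integer points of `x^4 + y^4 - w^2 = n` for `n = 2 m^2`, `n = -2 m^2`, and a
dichotomy for `n = m^2`.
-/

namespace Pool.Agent.Work.MP_4dcfa0_45

/-- infinitely many points from a conic -/
theorem infinite_of_conic (a b c N k X₀ Y₀ n : ℤ) (hD : 0 < b ^ 2 - 4 * a * c)
    (hsq : ¬ IsSquare (b ^ 2 - 4 * a * c)) (hk : k ≠ 0) (hN : N ≠ 0)
    (h₀ : a * X₀ ^ 2 + b * X₀ * Y₀ + c * Y₀ ^ 2 = N) (e : ℤ) (he : e ≠ 0)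
    (W : ℤ → ℤ → ℤ)
    (hW : ∀ X Y : ℤ, a * X ^ 2 + b * X * Y + c * Y ^ 2 = N → k ∣ (X - X₀) → k ∣ (Y - Y₀) →
      (e * X) ^ 4 + Y ^ 4 - W X Y ^ 2 = n) :
    {p : ℤ × ℤ × ℤ | p.1 ^ 4 + p.2.1 ^ 4 - p.2.2 ^ 2 = n}.Infinite := by
  have h := conic_infinite a b c N k X₀ Y₀ hD hsq hk hN h₀
  let G : ℤ × ℤ → ℤ × ℤ × ℤ := fun p => (e * p.1, p.2, W p.1 p.2)
  have hinj : Function.Injective G := by
    rintro ⟨x, y⟩ ⟨x', y'⟩ hxy
    simp only [G, Prod.mk.injEq] at hxy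
    obtain ⟨h1, h2, _⟩ := hxy
    rw [mul_left_cancel₀ he h1, h2]
  refine (h.image hinj.injOn).mono ?_
  rintro _ ⟨⟨X, Y⟩, ⟨h1, h2, h3⟩, rfl⟩
  exact hW X Y h1 h2 h3

/-- infinitely many points with coprime `x, y` from a conic -/
theorem infinite_of_conic_coprime (a b c N k X₀ Y₀ n : ℤ) (hD : 0 < b ^ 2 - 4 * a * c)
    (hsq : ¬ IsSquare (b ^ 2 - 4 * a * c)) (hk : k ≠ 0) (hN : N ≠ 0)
    (h₀ : a * X₀ ^ 2 + b * X₀ * Y₀ + c * Y₀ ^ 2 = N) (e : ℤ) (he : e ≠ 0)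
    (W : ℤ → ℤ → ℤ)
    (hW : ∀ X Y : ℤ, a * X ^ 2 + b * X * Y + c * Y ^ 2 = N → k ∣ (X - X₀) → k ∣ (Y - Y₀) →
      (e * X) ^ 4 + Y ^ 4 - W X Y ^ 2 = n ∧ IsCoprime (e * X) Y) :
    {p : ℤ × ℤ × ℤ | p.1 ^ 4 + p.2.1 ^ 4 - p.2.2 ^ 2 = n ∧ IsCoprime p.1 p.2.1}.Infinite := by
  have h := conic_infinite a b c N k X₀ Y₀ hD hsq hk hN h₀
  let G : ℤ × ℤ → ℤ × ℤ × ℤ := fun p => (e * p.1, p.2, W p.1 p.2)
  have hinj : Function.Injective G := by
    rintro ⟨x, y⟩ ⟨x', y'⟩ hxy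
    simp only [G, Prod.mk.injEq] at hxy
    obtain ⟨h1, h2, _⟩ := hxy
    rw [mul_left_cancel₀ he h1, h2]
  refine (h.image hinj.injOn).mono ?_
  rintro _ ⟨⟨X, Y⟩, ⟨h1, h2, h3⟩, rfl⟩
  exact hW X Y h1 h2 h3

/-- coprimality of the coordinates of a point on a conic with squarefree right-hand side -/
theorem coprime_of_squarefree {a b c N X Y : ℤ} (hN : Squarefree N)
    (h : a * X ^ 2 + b * X * Y + c * Y ^ 2 = N) : IsCoprime X Y := by
  rw [Int.isCoprime_iff_gcd_eq_one]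
  obtain ⟨u, hu⟩ := Int.gcd_dvd_left X Y
  obtain ⟨v, hv⟩ := Int.gcd_dvd_right X Y
  set g : ℤ := (Int.gcd X Y : ℤ) with hg
  have h1 : g * g ∣ N := by
    refine ⟨a * u ^ 2 + b * u * v + c * v ^ 2, ?_⟩
    rw [← h, hu, hv]; ring
  have h2 := hN g h1
  rw [hg, Int.ofNat_isUnit, Nat.isUnit_iff] at h2
  exact h2

theorem two_pos_of_ge (m : ℤ) (hm : 2 ≤ m) :
    {p : ℤ × ℤ × ℤ | p.1 ^ 4 + p.2.1 ^ 4 - p.2.2 ^ 2 = 2 * m ^ 2 ∧
      IsCoprime p.1 p.2.1}.Infinite := by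
  have hD : (-(m ^ 4 - 4 * m ^ 2 + 1)) ^ 2 - 4 * (2 * m ^ 2 * (m ^ 2 - 1)) *
      (-(2 * (m ^ 2 - 1))) = m ^ 8 + 8 * m ^ 6 - 14 * m ^ 4 + 8 * m ^ 2 + 1 := by ring
  have hns : ¬ IsSquare (m ^ 8 + 8 * m ^ 6 - 14 * m ^ 4 + 8 * m ^ 2 + 1) := by
    rcases lt_or_ge m 8 with h | h
    · interval_cases m
      · exact not_isSquare_between (r := 24) (by norm_num) (by norm_num) (by norm_num)
      · exact not_isSquare_between (r := 106) (by norm_num) (by norm_num) (by norm_num)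
      · exact not_isSquare_between (r := 307) (by norm_num) (by norm_num) (by norm_num)
      · exact not_isSquare_between (r := 712) (by norm_num) (by norm_num) (by norm_num)
      · exact not_isSquare_between (r := 1426) (by norm_num) (by norm_num) (by norm_num)
      · exact not_isSquare_between (r := 2583) (by norm_num) (by norm_num) (by norm_num)
    · have h2 : 64 ≤ m ^ 2 := by nlinarith
      refine not_isSquare_between (r := m ^ 4 + 4 * m ^ 2 - 15) ?_ ?_ ?_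
      · nlinarith [sq_nonneg (m ^ 2)]
      · have : m ^ 8 + 8 * m ^ 6 - 14 * m ^ 4 + 8 * m ^ 2 + 1 -
          (m ^ 4 + 4 * m ^ 2 - 15) ^ 2 = 128 * m ^ 2 - 224 := by ring
        linarith
      · have : (m ^ 4 + 4 * m ^ 2 - 15 + 1) ^ 2 -
          (m ^ 8 + 8 * m ^ 6 - 14 * m ^ 4 + 8 * m ^ 2 + 1) =
          2 * (m ^ 2) * (m ^ 2 - 60) + 195 := by ring
        nlinarith
  have hpos : 0 < m ^ 8 + 8 * m ^ 6 - 14 * m ^ 4 + 8 * m ^ 2 + 1 := by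
    have h2 : 4 ≤ m ^ 2 := by nlinarith
    have : m ^ 8 + 8 * m ^ 6 - 14 * m ^ 4 + 8 * m ^ 2 + 1 =
      (m ^ 2) ^ 4 + (m ^ 2) ^ 2 * (8 * (m ^ 2) - 14) + 8 * m ^ 2 + 1 := by ring
    rw [this]
    have h3 : 0 ≤ (m ^ 2) ^ 2 * (8 * (m ^ 2) - 14) := mul_nonneg (by positivity) (by linarith)
    positivity
  refine infinite_of_conic_coprime (2 * m ^ 2 * (m ^ 2 - 1)) (-(m ^ 4 - 4 * m ^ 2 + 1))
    (-(2 * (m ^ 2 - 1))) (m ^ 4 + 1) (m ^ 4 + 1) 1 1 (2 * m ^ 2) (by rw [hD]; exact hpos)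
    (by rw [hD]; exact hns) (by positivity) (by positivity) (by ring) m (by omega)
    (fun X Y => m ^ 2 * X ^ 2 - Y ^ 2 - (m ^ 2 - 1) * (X * Y + 1)) ?_
  rintro X Y h ⟨q, hq⟩ _
  refine ⟨by linear_combination (X * Y + 1) * h, IsCoprime.mul_left ?_ ?_⟩
  · refine ⟨2 * m * (m ^ 2 - 1) * X ^ 2 - (m ^ 3 - 4 * m) * X * Y - 2 * m * Y ^ 2 - m ^ 3,
      2 * Y - X, ?_⟩
    linear_combination h
  · refine ⟨1 - q * (2 * m ^ 2 * (m ^ 2 - 1) * X - (m ^ 4 - 4 * m ^ 2 + 1) * Y),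
      q * (2 * (m ^ 2 - 1)) * Y, ?_⟩
    linear_combination (-q) * h + hq

theorem two_one :
    {p : ℤ × ℤ × ℤ | p.1 ^ 4 + p.2.1 ^ 4 - p.2.2 ^ 2 = 2 * 1 ^ 2 ∧
      IsCoprime p.1 p.2.1}.Infinite := by
  refine infinite_of_conic_coprime 36 (-73) (-36) (-89) 2 (-121) 295 (2 * 1 ^ 2) (by norm_num)
    (not_isSquare_between (r := 102) (by norm_num) (by norm_num) (by norm_num))
    two_ne_zero (by norm_num) (by norm_num) 1 one_ne_zero
    (fun X Y => X ^ 2 - Y ^ 2 - 9 * ((X * Y - 1) / 2)) ?_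
  rintro X Y h ⟨u, hu⟩ ⟨v, hv⟩
  have hco : IsCoprime X Y :=
    coprime_of_squarefree (Int.squarefree_natAbs.1 (by decide +kernel)) h
  refine ⟨?_, by rw [one_mul]; exact hco⟩
  have hX : X = -121 + 2 * u := by linarith
  have hY : Y = 295 + 2 * v := by linarith
  have hj : X * Y - 1 = 2 * (-17848 + 295 * u - 121 * v + 2 * u * v) := by rw [hX, hY]; ring
  rw [hj, Int.mul_ediv_cancel_left _ two_ne_zero]
  set j := -17848 + 295 * u - 121 * v + 2 * u * v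
  have h1 : X * Y = 2 * j + 1 := by linarith
  have h2 : 18 * (X ^ 2 - Y ^ 2) = 73 * j - 8 := by
    have h3 : 36 * (X ^ 2 - Y ^ 2) = 73 * (X * Y) - 89 := by linear_combination h
    rw [h1] at h3
    linarith
  have h4 : (1 * X) ^ 4 + Y ^ 4 - (X ^ 2 - Y ^ 2 - 9 * j) ^ 2 =
      j * (18 * (X ^ 2 - Y ^ 2)) - 81 * j ^ 2 + 2 * (X * Y) ^ 2 := by ring
  rw [h4, h2, h1]; ring

theorem neg_two_of_ge (m : ℤ) (hm : 4 ≤ m) :
    {p : ℤ × ℤ × ℤ | p.1 ^ 4 + p.2.1 ^ 4 - p.2.2 ^ 2 = -2 * m ^ 2 ∧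
      IsCoprime p.1 p.2.1}.Infinite := by
  have hD : (-(m ^ 4 + 4 * m ^ 2 + 1)) ^ 2 - 4 * (2 * m ^ 2 * (m ^ 2 + 1)) *
      (2 * (m ^ 2 + 1)) = m ^ 8 - 8 * m ^ 6 - 14 * m ^ 4 - 8 * m ^ 2 + 1 := by ring
  have hns : 0 < m ^ 8 - 8 * m ^ 6 - 14 * m ^ 4 - 8 * m ^ 2 + 1 ∧
      ¬ IsSquare (m ^ 8 - 8 * m ^ 6 - 14 * m ^ 4 - 8 * m ^ 2 + 1) := by
    rcases lt_or_ge m 9 with h | h
    · interval_cases m
      · exact ⟨by norm_num,
          not_isSquare_between (r := 170) (by norm_num) (by norm_num) (by norm_num)⟩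
      · exact ⟨by norm_num,
          not_isSquare_between (r := 506) (by norm_num) (by norm_num) (by norm_num)⟩
      · exact ⟨by norm_num,
          not_isSquare_between (r := 1134) (by norm_num) (by norm_num) (by norm_num)⟩
      · exact ⟨by norm_num,
          not_isSquare_between (r := 2188) (by norm_num) (by norm_num) (by norm_num)⟩
      · exact ⟨by norm_num,
          not_isSquare_between (r := 3823) (by norm_num) (by norm_num) (by norm_num)⟩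
    · have h2 : 81 ≤ m ^ 2 := by nlinarith
      have hr : 0 ≤ m ^ 4 - 4 * m ^ 2 - 16 := by
        have : m ^ 4 - 4 * m ^ 2 - 16 = m ^ 2 * (m ^ 2 - 4) - 16 := by ring
        nlinarith
      have hlow : (m ^ 4 - 4 * m ^ 2 - 16) ^ 2 <
          m ^ 8 - 8 * m ^ 6 - 14 * m ^ 4 - 8 * m ^ 2 + 1 := by
        have : m ^ 8 - 8 * m ^ 6 - 14 * m ^ 4 - 8 * m ^ 2 + 1 -
          (m ^ 4 - 4 * m ^ 2 - 16) ^ 2 = 2 * (m ^ 2) * (m ^ 2 - 68) - 255 := by ring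
        nlinarith
      refine ⟨lt_of_le_of_lt (sq_nonneg _) hlow,
        not_isSquare_between (r := m ^ 4 - 4 * m ^ 2 - 16) hr hlow ?_⟩
      have : (m ^ 4 - 4 * m ^ 2 - 16 + 1) ^ 2 -
          (m ^ 8 - 8 * m ^ 6 - 14 * m ^ 4 - 8 * m ^ 2 + 1) = 128 * m ^ 2 + 224 := by ring
      linarith
  refine infinite_of_conic_coprime (2 * m ^ 2 * (m ^ 2 + 1)) (-(m ^ 4 + 4 * m ^ 2 + 1))
    (2 * (m ^ 2 + 1)) (m ^ 4 + 1) (m ^ 4 + 1) 1 1 (-2 * m ^ 2) (by rw [hD]; exact hns.1)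
    (by rw [hD]; exact hns.2) (by positivity) (by positivity) (by ring) m (by omega)
    (fun X Y => m ^ 2 * X ^ 2 + Y ^ 2 - (m ^ 2 + 1) * (X * Y + 1)) ?_
  rintro X Y h ⟨q, hq⟩ _
  refine ⟨by linear_combination (X * Y + 1) * h, IsCoprime.mul_left ?_ ?_⟩
  · refine ⟨2 * m * (m ^ 2 + 1) * X ^ 2 - (m ^ 3 + 4 * m) * X * Y + 2 * m * Y ^ 2 - m ^ 3,
      2 * Y - X, ?_⟩
    linear_combination h
  · refine ⟨1 - q * (2 * m ^ 2 * (m ^ 2 + 1) * X - (m ^ 4 + 4 * m ^ 2 + 1) * Y),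
      -(q * (2 * (m ^ 2 + 1)) * Y), ?_⟩
    linear_combination (-q) * h + hq

theorem neg_two_one :
    {p : ℤ × ℤ × ℤ | p.1 ^ 4 + p.2.1 ^ 4 - p.2.2 ^ 2 = -2 * 1 ^ 2 ∧
      IsCoprime p.1 p.2.1}.Infinite := by
  refine infinite_of_conic_coprime 28 (-57) 28 (-41) 2 47 39 (-2 * 1 ^ 2) (by norm_num)
    (not_isSquare_between (r := 10) (by norm_num) (by norm_num) (by norm_num))
    two_ne_zero (by norm_num) (by norm_num) 1 one_ne_zero
    (fun X Y => 7 * ((X * Y - 1) / 2) - (X ^ 2 + Y ^ 2)) ?_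
  rintro X Y h ⟨u, hu⟩ ⟨v, hv⟩
  have hco : IsCoprime X Y :=
    coprime_of_squarefree (Int.squarefree_natAbs.1 (by decide +kernel)) h
  refine ⟨?_, by rw [one_mul]; exact hco⟩
  have hX : X = 47 + 2 * u := by linarith
  have hY : Y = 39 + 2 * v := by linarith
  have hj : X * Y - 1 = 2 * (916 + 39 * u + 47 * v + 2 * u * v) := by rw [hX, hY]; ring
  rw [hj, Int.mul_ediv_cancel_left _ two_ne_zero]
  set j := 916 + 39 * u + 47 * v + 2 * u * v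
  have h1 : X * Y = 2 * j + 1 := by linarith
  have h2 : 14 * (X ^ 2 + Y ^ 2) = 57 * j + 8 := by
    have h3 : 28 * (X ^ 2 + Y ^ 2) = 57 * (X * Y) - 41 := by linear_combination h
    rw [h1] at h3
    linarith
  have h4 : (1 * X) ^ 4 + Y ^ 4 - (7 * j - (X ^ 2 + Y ^ 2)) ^ 2 =
      j * (14 * (X ^ 2 + Y ^ 2)) - 49 * j ^ 2 - 2 * (X * Y) ^ 2 := by ring
  rw [h4, h2, h1]; ring

theorem neg_two_two :
    {p : ℤ × ℤ × ℤ | p.1 ^ 4 + p.2.1 ^ 4 - p.2.2 ^ 2 = -2 * 2 ^ 2 ∧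
      IsCoprime p.1 p.2.1}.Infinite := by
  refine infinite_of_conic_coprime 6 (-19) 6 34 1 20 7 (-2 * 2 ^ 2) (by norm_num)
    (not_isSquare_between (r := 14) (by norm_num) (by norm_num) (by norm_num))
    one_ne_zero (by norm_num) (by norm_num) 1 one_ne_zero
    (fun X Y => 6 * (X * Y + 2) - (X ^ 2 + Y ^ 2)) ?_
  intro X Y h _ _
  have hco : IsCoprime X Y :=
    coprime_of_squarefree (Int.squarefree_natAbs.1 (by decide +kernel)) h
  refine ⟨?_, by rw [one_mul]; exact hco⟩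
  linear_combination 2 * (X * Y + 2) * h

theorem neg_two_three :
    {p : ℤ × ℤ × ℤ | p.1 ^ 4 + p.2.1 ^ 4 - p.2.2 ^ 2 = -2 * 3 ^ 2 ∧
      IsCoprime p.1 p.2.1}.Infinite := by
  refine infinite_of_conic_coprime 36 (-89) 36 219 2 7 3 (-2 * 3 ^ 2) (by norm_num)
    (not_isSquare_between (r := 52) (by norm_num) (by norm_num) (by norm_num))
    two_ne_zero (by norm_num) (by norm_num) 1 one_ne_zero
    (fun X Y => 9 * ((X * Y + 3) / 2) - (X ^ 2 + Y ^ 2)) ?_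
  rintro X Y h ⟨u, hu⟩ ⟨v, hv⟩
  have hco : IsCoprime X Y :=
    coprime_of_squarefree (Int.squarefree_natAbs.1 (by decide +kernel)) h
  refine ⟨?_, by rw [one_mul]; exact hco⟩
  have hX : X = 7 + 2 * u := by linarith
  have hY : Y = 3 + 2 * v := by linarith
  have hj : X * Y + 3 = 2 * (12 + 3 * u + 7 * v + 2 * u * v) := by rw [hX, hY]; ring
  rw [hj, Int.mul_ediv_cancel_left _ two_ne_zero]
  set j := 12 + 3 * u + 7 * v + 2 * u * v
  have h1 : X * Y = 2 * j - 3 := by linarith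
  have h2 : 18 * (X ^ 2 + Y ^ 2) = 89 * j - 24 := by
    have h3 : 36 * (X ^ 2 + Y ^ 2) = 89 * (X * Y) + 219 := by linear_combination h
    rw [h1] at h3
    linarith
  have h4 : (1 * X) ^ 4 + Y ^ 4 - (9 * j - (X ^ 2 + Y ^ 2)) ^ 2 =
      j * (18 * (X ^ 2 + Y ^ 2)) - 81 * j ^ 2 - 2 * (X * Y) ^ 2 := by ring
  rw [h4, h2, h1]; ring

theorem two_sq (m : ℤ) (hm : m ≠ 0) :
    {p : ℤ × ℤ × ℤ | p.1 ^ 4 + p.2.1 ^ 4 - p.2.2 ^ 2 = 2 * m ^ 2 ∧
      IsCoprime p.1 p.2.1}.Infinite := by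
  rw [← sq_abs m]
  have h1 : 0 < |m| := abs_pos.2 hm
  rcases lt_or_ge |m| 2 with h | h
  · have : |m| = 1 := by omega
    rw [this]; exact two_one
  · exact two_pos_of_ge |m| h

theorem neg_two_sq (m : ℤ) (hm : m ≠ 0) :
    {p : ℤ × ℤ × ℤ | p.1 ^ 4 + p.2.1 ^ 4 - p.2.2 ^ 2 = -2 * m ^ 2 ∧
      IsCoprime p.1 p.2.1}.Infinite := by
  rw [← sq_abs m]
  have h1 : 0 < |m| := abs_pos.2 hm
  rcases lt_or_ge |m| 4 with h | h
  · have : |m| = 1 ∨ |m| = 2 ∨ |m| = 3 := by omega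
    rcases this with h | h | h
    · rw [h]; exact neg_two_one
    · rw [h]; exact neg_two_two
    · rw [h]; exact neg_two_three
  · exact neg_two_of_ge |m| h

/-! ### Squares -/

theorem no_triangle {u v r w : ℤ} (hu : u ≠ 0) (hv : v ≠ 0) (h1 : u * v = r ^ 2)
    (h2 : u ^ 2 + v ^ 2 = w ^ 2) : False := by
  obtain ⟨g, u', v', hg0, hco, hu', hv'⟩ :
      ∃ g u' v' : ℤ, g ≠ 0 ∧ Int.gcd u' v' = 1 ∧ u = g * u' ∧ v = g * v' := by
    have hgpos : 0 < Int.gcd u v := Int.gcd_pos_of_ne_zero_left v hu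
    refine ⟨Int.gcd u v, u / Int.gcd u v, v / Int.gcd u v, by positivity,
      Int.gcd_ediv_gcd_ediv_gcd hgpos, ?_, ?_⟩
    · rw [Int.mul_ediv_cancel' (Int.gcd_dvd_left u v)]
    · rw [Int.mul_ediv_cancel' (Int.gcd_dvd_right u v)]
  subst hu' hv'
  have hu0 : u' ≠ 0 := right_ne_zero_of_mul hu
  have hv0 : v' ≠ 0 := right_ne_zero_of_mul hv
  have h3 : g ^ 2 ∣ r ^ 2 := ⟨u' * v', by rw [← h1]; ring⟩
  obtain ⟨r', rfl⟩ := (Int.pow_dvd_pow_iff two_ne_zero).1 h3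
  have h4 : u' * v' = r' ^ 2 := by
    have : g ^ 2 * (u' * v') = g ^ 2 * r' ^ 2 := by linear_combination h1
    exact mul_left_cancel₀ (pow_ne_zero 2 hg0) this
  have h5 : g ^ 2 ∣ w ^ 2 := ⟨u' ^ 2 + v' ^ 2, by rw [← h2]; ring⟩
  obtain ⟨w', rfl⟩ := (Int.pow_dvd_pow_iff two_ne_zero).1 h5
  have h6 : u' ^ 2 + v' ^ 2 = w' ^ 2 := by
    have : g ^ 2 * (u' ^ 2 + v' ^ 2) = g ^ 2 * w' ^ 2 := by linear_combination h2
    exact mul_left_cancel₀ (pow_ne_zero 2 hg0) this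
  obtain ⟨a, ha⟩ := Int.sq_of_gcd_eq_one hco h4
  obtain ⟨b, hb⟩ := Int.sq_of_gcd_eq_one (by rw [Int.gcd_comm]; exact hco)
    (by rw [mul_comm]; exact h4 : v' * u' = r' ^ 2)
  have ha0 : a ≠ 0 := by
    rintro rfl
    rcases ha with h | h <;> simp at h <;> exact hu0 h
  have hb0 : b ≠ 0 := by
    rintro rfl
    rcases hb with h | h <;> simp at h <;> exact hv0 h
  apply not_fermat_42 ha0 hb0 (c := w')
  rw [← h6]
  rcases ha with h | h <;> rcases hb with h' | h' <;> rw [h, h'] <;> ring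

theorem not_isSquare_st {s t : ℤ} (ht : 0 < t) (hst : t < s) :
    ¬ IsSquare ((0 : ℤ) ^ 2 - 4 * (s ^ 2 - t ^ 2) * (-(2 * s * t))) := by
  rintro ⟨r, hr⟩
  have h1 : (2 : ℤ) ^ 2 ∣ r ^ 2 := ⟨(s ^ 2 - t ^ 2) * (2 * s * t), by rw [sq r, ← hr]; ring⟩
  obtain ⟨r', rfl⟩ := (Int.pow_dvd_pow_iff two_ne_zero).1 h1
  have hs0 : 0 < s := ht.trans hst
  have hu : 2 * s * t ≠ 0 := by positivity
  have hv : s ^ 2 - t ^ 2 ≠ 0 := by nlinarith
  refine no_triangle (r := r') (w := s ^ 2 + t ^ 2) hu hv ?_ (by ring)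
  have h2 : 4 * (2 * s * t * (s ^ 2 - t ^ 2)) = 4 * r' ^ 2 := by linear_combination hr
  linarith

theorem sq_of_point (m x y w : ℤ) (hm : 0 < m) (h : x ^ 4 + y ^ 4 - w ^ 2 = m ^ 2)
    (hx : m < x ^ 2) (hxy : y ^ 2 ≤ x ^ 2) :
    {p : ℤ × ℤ × ℤ | p.1 ^ 4 + p.2.1 ^ 4 - p.2.2 ^ 2 = m ^ 2}.Infinite := by
  set a := x ^ 2 with ha
  set b := y ^ 2 with hb
  have hb0 : 0 ≤ b := sq_nonneg y
  set c := |w| with hc
  have hc0 : 0 ≤ c := abs_nonneg w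
  have hceq : c ^ 2 = a ^ 2 + b ^ 2 - m ^ 2 := by
    rw [hc, sq_abs, ha, hb]; linear_combination -h
  have hcb : b < c := by
    have : b ^ 2 < c ^ 2 := by nlinarith
    exact lt_of_pow_lt_pow_left₀ 2 hc0 this
  have hca : c < a + b + m := by
    have : c ^ 2 < (a + b + m) ^ 2 := by nlinarith [mul_nonneg hb0 hm.le]
    exact lt_of_pow_lt_pow_left₀ 2 (by linarith) this
  obtain ⟨g, s, t, hg, hco, hs, ht⟩ :
      ∃ g s t : ℤ, 0 < g ∧ Int.gcd s t = 1 ∧ a + m = g * s ∧ c - b = g * t := by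
    have hgpos : 0 < Int.gcd (a + m) (c - b) :=
      Int.gcd_pos_of_ne_zero_left _ (by linarith : a + m ≠ 0)
    refine ⟨Int.gcd (a + m) (c - b), (a + m) / Int.gcd (a + m) (c - b),
      (c - b) / Int.gcd (a + m) (c - b), by positivity,
      Int.gcd_ediv_gcd_ediv_gcd hgpos, ?_, ?_⟩
    · rw [Int.mul_ediv_cancel' (Int.gcd_dvd_left _ _)]
    · rw [Int.mul_ediv_cancel' (Int.gcd_dvd_right _ _)]
  have ht0 : 0 < t := by
    have : 0 < g * t := by rw [← ht]; linarith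
    exact (mul_pos_iff_of_pos_left hg).1 this
  have hst : t < s := by
    have : g * t < g * s := by rw [← ht, ← hs]; linarith
    exact lt_of_mul_lt_mul_left this hg.le
  have hs0 : 0 < s := ht0.trans hst
  have h2 : t * (c + b) = s * (a - m) := by
    have : g * (t * (c + b)) = g * (s * (a - m)) := by
      have e1 : (c - b) * (c + b) = (a - m) * (a + m) := by linear_combination hceq
      rw [hs, ht] at e1
      linear_combination e1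
    exact mul_left_cancel₀ hg.ne' this
  have hN : (s ^ 2 - t ^ 2) * x ^ 2 + 0 * x * y + -(2 * s * t) * y ^ 2 =
      m * (s ^ 2 + t ^ 2) := by
    rw [← ha, ← hb]
    have e2 : t * (a + m) = s * (c - b) := by rw [hs, ht]; ring
    linear_combination (-s) * h2 - t * e2
  have hdiv : s ∣ x ^ 2 + m := ⟨g, by rw [← ha, hs]; ring⟩
  refine infinite_of_conic (s ^ 2 - t ^ 2) 0 (-(2 * s * t)) (m * (s ^ 2 + t ^ 2)) s x y (m ^ 2)
    ?_ (not_isSquare_st ht0 hst) hs0.ne' (by positivity) hN 1 one_ne_zero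
    (fun X Y => Y ^ 2 + t * ((X ^ 2 + m) / s)) ?_
  · have h3 : 0 < s ^ 2 - t ^ 2 := by nlinarith
    have : (0 : ℤ) ^ 2 - 4 * (s ^ 2 - t ^ 2) * (-(2 * s * t)) =
      8 * (s ^ 2 - t ^ 2) * s * t := by ring
    rw [this]; positivity
  · intro X Y h4 h5 _
    have h6 : s ∣ X ^ 2 + m := by
      have e3 : X ^ 2 + m = (X - x) * (X + x) + (x ^ 2 + m) := by ring
      rw [e3]
      exact dvd_add (dvd_mul_of_dvd_left h5 _) hdiv
    obtain ⟨q, hq⟩ := h6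
    rw [hq, Int.mul_ediv_cancel_left _ hs0.ne']
    have h7 : s * (X ^ 2 - m) = t * (2 * Y ^ 2 + t * q) := by
      have : s * (s * (X ^ 2 - m)) = s * (t * (2 * Y ^ 2 + t * q)) := by
        linear_combination h4 + t ^ 2 * hq
      exact mul_left_cancel₀ hs0.ne' this
    linear_combination q * h7 + (X ^ 2 - m) * hq

theorem square_iff (m : ℤ) (hm : m ≠ 0) :
    {p : ℤ × ℤ × ℤ | p.1 ^ 4 + p.2.1 ^ 4 - p.2.2 ^ 2 = m ^ 2}.Infinite ↔
      ∃ x y w : ℤ, x ^ 4 + y ^ 4 - w ^ 2 = m ^ 2 ∧ |m| < max (x ^ 2) (y ^ 2) := by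
  have h0 : 0 < |m| := abs_pos.2 hm
  rw [← sq_abs m]
  set n := |m| with hn
  constructor
  · intro hinf
    by_contra hcon
    push Not at hcon
    apply hinf
    refine Set.Finite.subset ((Set.finite_Icc (-n) n).prod
      ((Set.finite_Icc (-n) n).prod (Set.finite_Icc (-(2 * n)) (2 * n)))) ?_
    rintro ⟨x, y, w⟩ hp
    simp only [Set.mem_ofPred_eq] at hp
    have h1 := hcon x y w hp
    have hx : x ^ 2 ≤ n := (le_max_left _ _).trans h1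
    have hy : y ^ 2 ≤ n := (le_max_right _ _).trans h1
    have hxb : |x| ≤ n := by
      have : |x| ≤ x ^ 2 := by
        rw [← sq_abs]
        rcases (abs_nonneg x).eq_or_lt with h | h
        · rw [← h]; norm_num
        · nlinarith
      linarith
    have hyb : |y| ≤ n := by
      have : |y| ≤ y ^ 2 := by
        rw [← sq_abs]
        rcases (abs_nonneg y).eq_or_lt with h | h
        · rw [← h]; norm_num
        · nlinarith
      linarith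
    have hwb : |w| ≤ 2 * n := by
      have h2 : w ^ 2 ≤ (2 * n) ^ 2 := by
        have e1 : w ^ 2 = (x ^ 2) ^ 2 + (y ^ 2) ^ 2 - n ^ 2 := by linear_combination -hp
        have e2 : (x ^ 2) ^ 2 ≤ n ^ 2 := pow_le_pow_left₀ (sq_nonneg x) hx 2
        have e3 : (y ^ 2) ^ 2 ≤ n ^ 2 := pow_le_pow_left₀ (sq_nonneg y) hy 2
        nlinarith
      exact abs_le_of_sq_le_sq h2 (by linarith)
    rw [abs_le] at hxb hyb hwb
    exact ⟨⟨hxb.1, hxb.2⟩, ⟨hyb.1, hyb.2⟩, ⟨hwb.1, hwb.2⟩⟩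
  · rintro ⟨x, y, w, h, hlt⟩
    rcases le_total (y ^ 2) (x ^ 2) with hle | hle
    · rw [max_eq_left hle] at hlt
      exact sq_of_point n x y w h0 h hlt hle
    · rw [max_eq_right hle] at hlt
      exact sq_of_point n y x w h0 (by linarith) hlt hle

end Pool.Agent.Work.MP_4dcfa0_45
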