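import Mathlib

/-!
Integer points with congruence conditions on hyperbolas `a X^2 + b X Y + c Y^2 = N`.
-/

namespace Pool.Agent.Work.MP_4dcfa0_45

/-- Pell equation with a divisibility condition and a size condition on the second coordinate. -/
theorem pell_large {D : ℤ} (hD : 0 < D) (hsq : ¬ IsSquare D) (k : ℤ) (hk : k ≠ 0) (B : ℕ) :
    ∃ T U : ℤ, T ^ 2 - D * U ^ 2 = 1 ∧ k ∣ (T - 1) ∧ k ∣ U ∧ B < U.natAbs := by
  set j : ℤ := k * (B + 1) with hj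
  have hB : (0 : ℤ) < (B : ℤ) + 1 := by positivity
  have hj0 : j ≠ 0 := mul_ne_zero hk hB.ne'
  have hpos : 0 < D * j ^ 2 := mul_pos hD (by positivity)
  have hns : ¬ IsSquare (D * j ^ 2) := by
    rintro ⟨r, hr⟩
    apply hsq
    have hdvd : j ^ 2 ∣ r ^ 2 := ⟨D, by rw [sq r, ← hr]; ring⟩
    have hdvd' : j ∣ r := (Int.pow_dvd_pow_iff two_ne_zero).1 hdvd
    obtain ⟨q, rfl⟩ := hdvd'
    refine ⟨q, ?_⟩
    have : D * j ^ 2 = (q * q) * j ^ 2 := by rw [hr]; ring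
    exact mul_right_cancel₀ (by positivity) this
  obtain ⟨x, y, hxy, hy⟩ := Pell.exists_of_not_isSquare hpos hns
  refine ⟨x ^ 2 + D * (j * y) ^ 2, 2 * x * (j * y), ?_, ?_, ?_, ?_⟩
  · have h1 : x ^ 2 - D * (j * y) ^ 2 = 1 := by rw [← hxy]; ring
    have : (x ^ 2 + D * (j * y) ^ 2) ^ 2 - D * (2 * x * (j * y)) ^ 2 =
        (x ^ 2 - D * (j * y) ^ 2) ^ 2 := by ring
    rw [this, h1]; norm_num
  · have h1 : x ^ 2 = 1 + D * (j * y) ^ 2 := by linear_combination hxy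
    refine ⟨2 * D * j * (B + 1) * y ^ 2, ?_⟩
    rw [h1, hj]; ring
  · exact ⟨2 * x * ((B + 1) * y), by rw [hj]; ring⟩
  · have hx : x ≠ 0 := by
      rintro rfl
      nlinarith [sq_nonneg y, mul_nonneg hpos.le (sq_nonneg y)]
    rw [Int.natAbs_mul, Int.natAbs_mul, Int.natAbs_mul, hj, Int.natAbs_mul]
    have h1 : 1 ≤ x.natAbs := Int.natAbs_pos.2 hx
    have h2 : 1 ≤ y.natAbs := Int.natAbs_pos.2 hy
    have h3 : 1 ≤ k.natAbs := Int.natAbs_pos.2 hk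
    have h4 : ((B : ℤ) + 1).natAbs = B + 1 := by
      have : ((B : ℤ) + 1) = ((B + 1 : ℕ) : ℤ) := by push_cast; ring
      rw [this, Int.natAbs_natCast]
    rw [h4]
    have h5 : (2 : ℤ).natAbs = 2 := rfl
    rw [h5]
    have h6 : B + 1 ≤ k.natAbs * (B + 1) := Nat.le_mul_of_pos_left _ h3
    have h7 : k.natAbs * (B + 1) ≤ k.natAbs * (B + 1) * y.natAbs := Nat.le_mul_of_pos_right _ h2
    have h8 : k.natAbs * (B + 1) * y.natAbs ≤ 2 * x.natAbs * (k.natAbs * (B + 1) * y.natAbs) :=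
      Nat.le_mul_of_pos_left _ (by omega)
    omega

/-- one integer point on a hyperbola with non-square discriminant gives infinitely many, with
congruence conditions -/
theorem conic_infinite (a b c N k X₀ Y₀ : ℤ) (hD : 0 < b ^ 2 - 4 * a * c)
    (hsq : ¬ IsSquare (b ^ 2 - 4 * a * c)) (hk : k ≠ 0) (hN : N ≠ 0)
    (h₀ : a * X₀ ^ 2 + b * X₀ * Y₀ + c * Y₀ ^ 2 = N) :
    {p : ℤ × ℤ | a * p.1 ^ 2 + b * p.1 * p.2 + c * p.2 ^ 2 = N ∧ k ∣ (p.1 - X₀) ∧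
      k ∣ (p.2 - Y₀)}.Infinite := by
  set D := b ^ 2 - 4 * a * c with hDdef
  set P : Set (ℤ × ℤ) := {q | q.1 ^ 2 - D * q.2 ^ 2 = 1 ∧ k ∣ (q.1 - 1) ∧ k ∣ q.2} with hP
  have hPinf : P.Infinite := by
    intro hfin
    obtain ⟨B, hB⟩ := (hfin.image fun q : ℤ × ℤ => q.2.natAbs).bddAbove
    obtain ⟨T, U, h1, h2, h3, h4⟩ := pell_large hD hsq k hk B
    have : U.natAbs ≤ B := hB ⟨(T, U), ⟨h1, h2, h3⟩, rfl⟩
    omega
  let F : ℤ × ℤ → ℤ × ℤ := fun q =>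
    ((q.1 - b * q.2) * X₀ - 2 * c * q.2 * Y₀, 2 * a * q.2 * X₀ + (q.1 + b * q.2) * Y₀)
  have hinj : Set.InjOn F P := by
    rintro ⟨T, U⟩ _ ⟨T', U'⟩ _ h
    simp only [F, Prod.mk.injEq] at h
    obtain ⟨e1, e2⟩ := h
    have h1 : (T - T') * (2 * N) = 0 := by
      rw [← h₀]
      linear_combination (2 * a * X₀ + b * Y₀) * e1 + (b * X₀ + 2 * c * Y₀) * e2
    have hT : T = T' := by
      rcases mul_eq_zero.1 h1 with h | h
      · linarith
      · exact absurd h (by simpa using hN)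
    subst hT
    have h2 : (U - U') * (b * X₀ + 2 * c * Y₀) = 0 := by linear_combination -e1
    have h3 : (U - U') * (2 * a * X₀ + b * Y₀) = 0 := by linear_combination e2
    have h4 : (U - U') * (2 * N) = 0 := by
      rw [← h₀]
      linear_combination Y₀ * h2 + X₀ * h3
    rcases mul_eq_zero.1 h4 with h | h
    · rw [sub_eq_zero.1 h]
    · exact absurd h (by simpa using hN)
  refine (hPinf.image hinj).mono ?_
  rintro _ ⟨⟨T, U⟩, ⟨h1, h2, h3⟩, rfl⟩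
  obtain ⟨u, rfl⟩ := h3
  obtain ⟨t, ht⟩ := h2
  simp only at h1 ht
  refine ⟨?_, ?_, ?_⟩
  · simp only [F]
    have h5 : T ^ 2 - (b ^ 2 - 4 * a * c) * (k * u) ^ 2 = 1 := h1
    linear_combination N * h5 + (T ^ 2 - (b ^ 2 - 4 * a * c) * (k * u) ^ 2) * h₀
  · simp only [F]
    refine ⟨t * X₀ - b * u * X₀ - 2 * c * u * Y₀, ?_⟩
    linear_combination X₀ * ht
  · simp only [F]
    refine ⟨2 * a * u * X₀ + t * Y₀ + b * u * Y₀, ?_⟩
    linear_combination Y₀ * ht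

/-- strictly between two consecutive squares -/
theorem not_isSquare_between {D r : ℤ} (hr : 0 ≤ r) (h1 : r ^ 2 < D) (h2 : D < (r + 1) ^ 2) :
    ¬ IsSquare D := by
  rintro ⟨s, rfl⟩
  have h3 : r < |s| := by
    rw [← sq, ← sq_abs s] at h1
    exact lt_of_pow_lt_pow_left₀ 2 (abs_nonneg s) h1
  have h4 : |s| < r + 1 := by
    rw [← sq, ← sq_abs s] at h2
    exact lt_of_pow_lt_pow_left₀ 2 (by linarith) h2
  omega

end Pool.Agent.Work.MP_4dcfa0_45
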